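import Pool.Agent.U231.FF.Geo

/-!
# The standard conjecture of Hodge type for products of all varieties with varieties of Fermat type

Let `κ` be a finite field with `q` elements, of characteristic `p`, and `k` its algebraic closure. Let
`H` be a Weil cohomology theory on a class of smooth proper varieties over `k`, with an algebraically
closed coefficient field, and `G` a class of varieties, closed under products, with an action of a group
`Γ` with the formal properties of a Galois action (the example: the varieties which are defined over `κ`,
and the Galois group of `κ`). Let `σ` be the (geometric) Frobenius.

Let `X_i` be varieties in `G` **of Fermat type** of different prime degrees `N_i` and of lengths at most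
`s_i` (`IsFermatType`): the cohomology of `X_i` is generated by the classes of algebraic cycles and a
subspace `T_i`, stable under `σ`, such that each eigenvalue of `σ` on `T_i` is, up to a root of unity and
a power of `q`, a product `∏_{a ∈ A} g(θ ^ a)` of at most `s_i` Gauss sums over `κ`, where `θ` is a
multiplicative character of `κ` of order `N_i`, and where the multiset `A + p A + ⋯ + p ^ (f - 1) A`, `f` the
order of `p` modulo `N_i`, is not symmetric, i.e. not invariant under `a ↦ -a`. Let `D_i` be divisors on
the `X_i` which satisfy the hard Lefschetz theorem and the standard conjecture of Hodge type.

Let `Z` be **any** variety in `G`, of any dimension, with a divisor `E` which satisfies the hard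
Lefschetz theorem, such that the eigenvalues `β` of `σ` on `H(Z)` are algebraic numbers, and let
`f_i` be the order of `p` modulo `N_i`. Suppose that for all `β` and all `i` there is an `m > 0` such that

* the field `F = ℚ(β ^ m) ∩ ℚ(ζ_{N_i})`, `ζ_N` a root of unity of order `N`, is real (equivalently
  `(N_i - 1) / [F : ℚ]` is even); for instance `N_i` is odd and unramified in the field `ℚ(β ^ m)`;
* or `N_i > s_i f_i [F : ℚ] + 1`; or `N_i = 2`.

**So the theorem applies to all prime numbers `N_i` with finitely many exceptions, which depend only on
the fields `ℚ(β)`. For the other primes there is no condition at all on the `X_i`: they may be of any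
dimension and products of any number of factors, and `s_i` and `f_i` are arbitrary.**

**Theorem.** Let `V` be the product of `Z` and of finitely many pairwise different `X_i`, with the sum of
the pull-backs of `E` and the `D_i`. Then **the standard conjecture of Hodge type holds for `V` if and
only if it holds for `(Z, E)`**. No conjecture of Lefschetz type, no coincidence of homological and
numerical equivalence, no case of the Tate conjecture and no semisimplicity of the Frobenius is assumed
for `Z`.

**Examples without unproved hypotheses.** Let `N` be a prime number, `p ≡ 1` modulo `N`, and let `X` be a
diagonal hypersurface `∑ c_j x_j ^ N = 0`, of any dimension `n`, or a product of several such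
hypersurfaces of the same degree `N`. By the theorem of Weil `X` is of Fermat type, `s = n + 2` (for
products: the sum of these numbers): the classes with symmetric `A` are algebraic (linear
subspaces; Ran, Shioda, Katsura), and they lift to characteristic zero, so the standard conjecture of
Hodge type holds for `X`. Let `Z` be any surface over a finite field of characteristic `p` (or any variety for which the
conjecture is known, for instance an abelian fourfold). If `N` is odd and unramified in the fields of the Frobenius eigenvalues of `Z`, **then the standard
conjecture of Hodge type holds for `X × Z`**, in dimension `n + 2`, for all `n`, and also for `X_1 × ⋯ × X_r × Z` for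
such `X_i` of different degrees `N_i` with `p ≡ 1` modulo all `N_i`. Nothing else is assumed about the
surface `Z`; it need not lift to characteristic zero, and its Tate conjecture need not be known.

The other case: `MP_361a6f_ag.HyperplaneCoverings` (helper190) and `MP_361a6f_ag.LargePrimeCoverings`
(helper222) treat cyclic coverings of projective spaces branched along hyperplanes, by the classes of
type `(n, 0)`. Here all nonsymmetric characters occur, for instance those of type `(n/2, n/2)`, which
are transcendental but have some conjugate of another type.

The proof. Let `α_i` be eigenvalues of `σ` on the `T_i`, for `i` in a nonempty set `I`, and suppose that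
`β ∏ α_i` is a power of `q` up to a root of unity. Let `τ` be an automorphism of the field of algebraic
numbers which fixes `β ^ m`. By the theorem of Stickelberger the `p`-adic valuation of the conjugates of
the Gauss sums is given by the sawtooth function, and comparing the valuations of `β ∏ α_i` and its
conjugates one sees that the function `t ↦ ∑_{x ∈ A + p A + ⋯} saw(t x)` on `(ℤ/N_i)ˣ` is invariant under
the image of `τ` in `(ℤ/N_i)ˣ` (the different `i` are separated by an automorphism which is the identity on
`ℚ(ζ_{N_i})` and the complex conjugation on the other cyclotomic fields). These images form a subgroup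
`H` of index `[ℚ(β ^ m) ∩ ℚ(ζ_{N_i}) : ℚ]`. The values `L(1, χ)` are not zero, so the sawtooth functions
`t ↦ saw(t x)` are independent up to the sign of `x`, and the odd part of the multiplicity function of
`A + p A + ⋯` is invariant under `H` and not zero. So `-1` is not in `H` (the field is not real), and
the support of `A + p A + ⋯` contains a coset of `H`: at least `|H| = (N_i - 1) / [F : ℚ]` elements, but at
most `s_i f_i`. This contradicts the condition. So there are no such relations, the algebraic classes on
the product are combinations of products of algebraic classes on the `X_i` with algebraic classes on
`Z`, the conjectures D and A hold for the `X_i`, and the Lefschetz decomposition of the algebraic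
classes on the `X_i` gives the statement.

helper231 (`Pool/Agent/U231/FF`, `U231/FT/Ari`); the geometric part is the library of helper876
(`N876/FL/Geo3`, definitions adapted from helper190's `U190/HC/Defs`), the norms of Gauss sums are from
`Y145/DI/Stick` and `N214/HB/Gauss`, the nonvanishing of the Bernoulli numbers from `H916R2`.
-/

set_option autoImplicit false

universe u

namespace Pool.Agent.Results.MP_ffcd14_ag.FermatFactors

open Pool.Agent.H914 Pool.Agent.H914.VarClass.Obj Pool.Agent.H281R3.HT Pool.Agent.TH125.Gal
  Pool.Agent.U231.FF

/-- For all divisors `D i` on the `X i` with the hard Lefschetz theorem and the standard conjecture of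
Hodge type, and all divisors `E` on `Z` with the hard Lefschetz theorem, the standard conjecture of Hodge
type holds for the product of `Z` and of the `X i`, `i ∈ L`, with the sum divisor, if and only if it
holds for `(Z, E)`. -/
def TransfersHodge {k : Type u} [Field k] {𝒱 : VarClass k} {ops : CycleOps 𝒱}
    {W : WeilCohomology.{u, 0} ops} {Γ : Type} [Group Γ] {ι : Type} (X : ι → GVar W Γ)
    (Z : GVar W Γ) (L : List ι) : Prop :=
  ∀ (D : ∀ i, (X i).X.Cycles) (E : Z.X.Cycles), (∀ i, (X i).X.IsCyc 1 (D i)) →
    (∀ i, HardLefschetz W (X i).X (D i)) → (∀ i, HodgeType W (X i).X (D i)) →
    Z.X.IsCyc 1 E → HardLefschetz W Z.X E →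
    (HodgeType W (productOf X D ⟨Z.X, E⟩ L).X (productOf X D ⟨Z.X, E⟩ L).D ↔
      HodgeType W Z.X E)

/-- **The standard conjecture of Hodge type for products of arbitrary varieties with varieties of
Fermat type.** -/
theorem result (p : ℕ) [Fact p.Prime] (κ : Type) [Field κ] [Fintype κ] [CharP κ p] {ι : Type}
    (N s : ι → ℕ) {k : Type u} [Field k] {𝒱 : VarClass k} {ops : CycleOps 𝒱}
    (W : WeilCohomology.{u, 0} ops) [IsAlgClosed W.K] (τ : W.K →+* ℂ) {Γ : Type} [Group Γ]
    (χ : Γ →* W.Kˣ) (G : Set (GVar W Γ)) (X : ι → GVar W Γ) (Z : GVar W Γ) (σ : Γ)
    (h : IsFermatSystem κ p N s χ G X Z σ τ) :
    ∀ L : List ι, L.Nodup → TransfersHodge X Z L := by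
  obtain ⟨S, hS⟩ := exists_sys p κ N s h
  intro L hL D E hD hHD hHod hE hHE
  rw [productOf_eq]
  exact hS.hodge_tow hD hHD hHod hE hHE hL

end Pool.Agent.Results.MP_ffcd14_ag.FermatFactors
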