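import Mathlib
import Pool.Agent.U191.GSHalf
import Pool.Agent.TH117.PO.Full

/-!
# The standard conjecture of Hodge type for the abelian varieties over finite fields with one half
of all slope types of every CM field of degree `2 r ^ k`

Over an algebraic closure of the field with `p` elements each abelian variety is isogenous to the
reduction of an abelian variety of CM type (Honda, Tate). So an abelian variety over the field
with `p ^ a` elements is modelled by `RedAV`: a finite product of CM types `(E i, Φ i)` with Weil
numbers `π i ∈ E i` that satisfy the formula of Shimura and Taniyama; its cohomology of degree
`n`, with coefficients in an algebraically closed field `Ω`, consists of the alternating `n`-forms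
on `Ω ⊗ H_1`, on which the Frobenius endomorphism acts by `π`. We fix an isomorphism `ν` of the
algebraic closure of `ℚ_p` with `ℂ`; it defines a `p`-adic valuation of `ℂ`, with the value one at
`p`.

Let `K i` (`i` in a finite set) be CM fields of degree `2 g i` which are pairwise independent: for
`i ≠ k` and all complex embeddings `φ` of `K i` and `ψ` of `K k` some automorphism of `ℂ` is the
identity on `φ (K i)` and the complex conjugation on `ψ (K k)` (this is no condition if there is
only one field). Let `M i` be a function with integral values on the complex embeddings of `K i`,
invariant under complex conjugation (the weights). A CM type `Φ i` of `K i` (a choice of one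
element out of each complex conjugate pair of embeddings; there are `2 ^ g i` types), `M i` and a
real number `κ i ≠ 0` prescribe the slopes `(a + κ M) / 2` (at the embeddings in `Φ i`) and `(a -
κ M) / 2` (outside of `Φ i`) of a Weil number for `p ^ a` in `K i`. If `p` splits completely in `K
i` then, by Honda and Tate, all rational slopes between `0` and `a` that are symmetric in this way
occur for abelian varieties over finite fields. The case `M = 1`, `κ = a` is the ordinary case.

For a family of types `Φ i` let `𝒞` (`OfTypes`) be the class of the abelian varieties `Y` each of
whose factors is supersingular or has a Frobenius endomorphism some power of which is, for some `i`,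
a Weil number in `K i` with the slopes prescribed by `Φ i`, `M i` and some real number `κ i ≠ 0`
(which depends only on `Y` and `i`). So `Y` is, over an algebraic closure, isogenous to a product of
powers of one abelian variety for each `i`, with the given slopes, and of a supersingular one. The
class `𝒞` contains all products of powers of its members, and the products of its members with
supersingular abelian varieties.

**The property of the slope types.** `Q` (`Holds`) is **the standard conjecture of Hodge type**
for all abelian varieties `Y` in `𝒞`, all polarizations and all codimensions `r`, `dim Y = 2 r +
m`: a class `z` in `H^{2 r}(Y)` of an algebraic cycle which is primitive and not zero has `(-1)^r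
z ∪ z ∪ E^m > 0`, where `E` is the class of the polarization.

The space of the classes of algebraic cycles of degree `card κ` on `Y`, with rational
coefficients, is `C Y κ`. The properties of these spaces that are used are known theorems: they
are closed under sums, cup products, pull-backs and push-forwards, they contain the Hodge classes
of degree two of the liftings (Lefschetz) and the split Weil classes of degree four and six
(Markman; not needed here), and the Tate classes of degree two are combinations of such classes
(Tate) (`IsCycleSystem`); the positivity of the Rosati involution (Weil, `IsRosatiPositive`);
classes of cycles are Tate classes over finite extensions (`AreTate`). The polarizations are those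
compatible with the complex multiplications of the lifting (`IsPolar`, with the Riemann form `∑ i,
Tr (α i * conj (x i) * y i)`); by theorems of Honda, Tate and Zink each polarized abelian variety
over an algebraic closure of a finite field is isogenous to the reduction of such a polarized
abelian variety.

**The theorem.** Let `K` be **any CM field of degree `2 g = 2 r ^ k`**, `r` a prime number, of
degree at least `16` if `r = 2`. Nothing is assumed about the Galois group of the normal closure of
`K`, and nothing about the subfields of `K`.

* (`HalfOfAll`) For all weights `M` (odd if `r = 2`; if `r` is odd then `r` may divide some, but not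
  all of them) the property `Q` is true for **at least one half of all `2 ^ g` types** of `K`.
* (`MostWithWeightsOne`) For the weights `M = 1` (for instance in the ordinary case) it is true for
  at least `(1 - 1 / r) 2 ^ g` of the types.
* (`OneOfTwo`) There is a set `B` of embeddings of `K`, stable under complex conjugation, such that
  for **every** type `Φ` it is true for `Φ` or for the symmetric difference of `Φ` and `B`.
* (`SixteenPercent`) There is a number `g₀` such that for every CM field that is **abelian over
  `ℚ`**, of any degree `2 g ≥ 2 g₀`, and all odd weights it is true for at least 16 percent of all
  `2 ^ g` types; again nothing is assumed on the subfields.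

All this is proved more generally for finitely many pairwise independent fields `K i`; the
proportions are then multiplied.

The earlier result for this problem (AlmostAllSlopeTypes) bounds the number of the exceptional
types by `2 ^ g ρ (K)`; the number `ρ (K)` can be larger than one if `K` has many CM subfields,
for instance for abelian fields of 2-power degree, and then the bound says nothing. The proof
joins two parts of the library of the starting files: the theorem that one half of all types have
no relations (`Pool.Agent.Q29.EP`, written for the conjecture of Parshin, MP_de59b4_ag), and the
consequences of elementary relations between the Frobenius eigenvalues for this problem.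
-/

set_option autoImplicit false

namespace Pool.Agent.Results.MP_ffcd14_ag.HalfOfAllTypes

open NumberField Module Pool.Agent.H204R3.CM Pool.Agent.H977R3.CM Pool.Agent.TH170 Pool.Agent.Q29.EP

open Pool.Agent.TH117.PO Pool.Agent.W495.TA Pool.Agent.W547.KB

/-- The standard conjecture of Hodge type for all abelian varieties `Y` with the slope types `Φ`: for
each primitive class `z ≠ 0` in `H^{2 r}(Y)` of an algebraic cycle, `(-1)^r z ∪ z ∪ E^m > 0`, where `E`
is the class of the polarization given by `α`, and `dim Y = 2 r + m`. -/
def Holds {p : ℕ} [Fact p.Prime] (ν : PadicAlgCl p ≃+* ℂ) {I : Type} (K : I → Type)
    [∀ i, Field (K i)] (M : ∀ i, (K i →+* ℂ) → ℤ) (Φ : ∀ i, Set (K i →+* ℂ)) : Prop :=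
  ∀ (Ω : Type) [Field Ω] [CharZero Ω] [IsAlgClosed Ω]
    (C : (Y : RedAV p ν) → (κ : Type) → ((TM Ω Y) [⋀^κ]→ₗ[Ω] Ω) → Prop), IsCycleSystem Ω C →
    IsRosatiPositive Ω C → AreTate Ω C → ∀ Y : RedAV p ν, GS.OfTypes K M Φ Y →
      ∀ α : Y.X.H1, IsPolar Y.X α → ∀ r m : ℕ, 2 * (2 * r + m) = finrank ℚ Y.X.H1 →
        ∀ z : (TM Ω Y) [⋀^Fin r × Fin 2]→ₗ[Ω] Ω, C Y (Fin r × Fin 2) z → z ≠ 0 →
          IsPrim α m z → IsPosClass α m z

/-- The property of the slope types `Φ i` with the weights `M i`. -/
def Q : TypeProperty := fun _ _ ν _ _ K _ _ _ M Φ => Holds ν K M Φ

/-- **The standard conjecture of Hodge type holds for all abelian varieties over finite fields with one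
half of all slope types of every CM field of degree `2 r ^ k`.** -/
theorem result : HalfOfAll Q ∧ MostWithWeightsOne Q ∧ OneOfTwo Q ∧ SixteenPercent Q := by
  have h : WithoutRelations Q := Pool.Agent.U191.GSHalf.withoutRelations
    fun p _ ν I _ K _ _ _ M Φ h Ω _ _ _ C hC hR hT Y hY α hα r m hrm z hz hz0 hprim =>
      positive_full hC hR hT (Or.inr (h Y hY)) hα hrm hz hz0 hprim
  exact ⟨halfOfAll h, mostWithWeightsOne h, oneOfTwo h, sixteenPercent h⟩

end Pool.Agent.Results.MP_ffcd14_ag.HalfOfAllTypes
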