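import Pool.Agent.U226.SG.Main

/-!
# A zero-one law for the standard conjecture of Hodge type

Let `Y` be a smooth projective variety over any field (of any characteristic) with a divisor `D`
with `0 < deg (D ^ dim Y)` which satisfies hard Lefschetz and the Lefschetz standard conjecture.
For a variety `Z` with a divisor with the same properties (Lefschetz) consider the products
`Y ^ n × Z` with the sum of the pull-backs of the divisors. On the primitive cycles of codimension
`j` modulo numerical equivalence there is the form `⟨x, y⟩ = (-1) ^ j deg (x · y · D ^ (d - 2 j))`;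
let `p_j` and `q_j` be its numbers of positive and of negative squares, and

  `p = Σ_j (d - 2 j + 1) p_j`,  `q = Σ_j (d - 2 j + 1) q_j`,  `d = dim (Y ^ n × Z)`, `2 j ≤ d`.

1. `p + q` is the rank of the group of all cycles on `Y ^ n × Z` modulo numerical equivalence (so the
   weights `d - 2 j + 1` count the positions in the Lefschetz strings).
2. Zero-one law: EITHER the standard conjecture of Hodge type holds, modulo numerical equivalence,
   for ALL the powers of `Y` (so `q = 0` for them), OR there is `ρ < 1` such that for ALL `Z`

     `|p - q| ≤ C(Z) ρ ^ n (p + q)`  for all `n`: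

   the positive and the negative squares on `Y ^ n × Z` balance up to an exponentially small part.
   So a bound `q ≤ (1/2 - ε) (p + q)` for infinitely many of the products `Y ^ n × Z`, for one single `Z` for
   which these are not zero, already implies the standard conjecture of Hodge type modulo numerical
   equivalence for all powers of `Y`.
3. An explicit form. If the conjecture fails for `Y ^ (m + 1)`, let `h`, `h_Z` be the dimensions of the total
   cohomology of `Y` and `Z`, and `b = h ^ (m + 1)`. Then on `Y ^ ((m + 1) (n + 1) + r) × Z`

     `|p - q| ≤ b (b - 1) ^ n h ^ r h_Z`,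

   whereas `p + q` is at least `h ^ N` divided by a polynomial in `N = (m + 1) (n + 1) + r`; hence every
   `ρ` with `ρ ^ (m + 1) > 1 - 1 / b` is admissible in 2.

The starting results in this problem need a hypothesis on the cohomology or on the class of
varieties (ordinary, K3, large monodromy, ...), or (`SignatureKernel`) state the positivity of certain
combinations of signatures; there is no statement that the failure for ONE product forces the
signatures of ALL products `Y ^ n × Z` to cancel.

Proof. Replace the forms by the form `b(x, y) = Tr (x · * y)` on all algebraic classes, with the Lefschetz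
star operator `*`, whose signature is `p - q` (the file `Tot3`). If the conjecture fails for `Q = Y ^ (m + 1)`,
there is an algebraic class `c` on `Q` with `b(c, c) < 0`, whereas `b(1, 1) > 0`. The correspondences
`z = 1 ⊗ c`, `z' = c ⊗ 1` (the operators of rank one `x ↦ b(c, x) · 1`, `x ↦ b(1, x) · c`) are algebraic and
adjoint, and `z z'`, `z' z` are negative multiples of the projectors `f`, `e` on `1` and on `c`. So on the product
`T × Q × P` the image of `e` and the image of `f` are ANTI-isometric, and for the signature `σ` of the form on
the classes of a part `g`: `2 σ(g) = σ(g (1 - e)) + σ(g (1 - f))`, where `1 - e` and `1 - f` are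
projectors of rank `b - 1`. Induction on `n` gives 3: the signature on `Q ^ (n + 1) × Z` is the mean of `2 ^ (n + 1)` terms, each the
signature of a space of classes inside a cohomology group of dimension `(b - 1) ^ (n + 1) h_Z` (here a
signature is bounded by the dimension since the rank of the form on algebraic classes is at most
the dimension of the cohomology); the file keeps one factor `b`. The lower bound for `p + q` comes from the
permutations of the factors of `Y ^ n`.

In the Lean statement `𝒱`, `ops` is a class of smooth projective varieties with algebraic cycles, and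
`W` is any Weil cohomology.
-/

set_option autoImplicit false

open CategoryTheory AlgebraicGeometry

universe u v

namespace Pool.Agent.Results.MP_ffcd14_ag.SignatureZeroOneLaw

open Module
open Pool.Agent.H914 Pool.Agent.H914.VarClass Pool.Agent.H914.VarClass.Obj
  Pool.Agent.H914.WeilCohomology Pool.Agent.H281R3.HT Pool.Agent.U226.SG
open Pool.Agent.N181.Gap (rkSum)

/-- **A zero-one law for the standard conjecture of Hodge type.** -/
theorem result {k : Type u} [Field k] {𝒱 : VarClass k} {ops : CycleOps 𝒱}
    (W : WeilCohomology.{u, v} ops) {Y : Polarized 𝒱} (hY : Lef W Y)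
    (hdeg : 0 < topDeg Y ops) :
    -- 1. The weighted numbers of squares add up to the number of cycles.
    (∀ Z, Lef W Z → ∀ n, (rkSum ops (times ops Y Z n).X : ℤ) =
      posT W (times ops Y Z n) + negT W (times ops Y Z n)) ∧
    -- 2. The zero-one law.
    ((∀ m, HodgeNum W (times ops Y Y m) ∧ negT W (times ops Y Y m) = 0) ∨
      ∃ ρ : ℝ, 0 < ρ ∧ ρ < 1 ∧ ∀ Z, Lef W Z → ∃ C : ℝ, 0 ≤ C ∧ ∀ n,
        |(posT W (times ops Y Z n) : ℝ) - negT W (times ops Y Z n)| ≤
          C * ρ ^ n * (posT W (times ops Y Z n) + negT W (times ops Y Z n))) ∧
    -- 3. The explicit form.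
    (∀ m, ¬ HodgeNum W (times ops Y Y m) → ∀ Z, Lef W Z →
      (∀ n r, |posT W (times ops Y Z ((m + 1) * (n + 1) + r)) -
          negT W (times ops Y Z ((m + 1) * (n + 1) + r))| ≤
        (finrank W.K (W.H Y.X) ^ (m + 1) : ℕ) * ((finrank W.K (W.H Y.X) ^ (m + 1) - 1) ^ n *
          (finrank W.K (W.H Y.X) ^ r * finrank W.K (W.H Z.X)) : ℕ)) ∧
      ∀ ρ : ℝ, 0 < ρ → 1 - 1 / ((finrank W.K (W.H Y.X) : ℝ) ^ (m + 1)) < ρ ^ (m + 1) →
        ∃ C : ℝ, 0 ≤ C ∧ ∀ n,
          |(posT W (times ops Y Z n) : ℝ) - negT W (times ops Y Z n)| ≤
            C * ρ ^ n * (posT W (times ops Y Z n) + negT W (times ops Y Z n))) :=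
  ⟨fun _ hZ n => main_rank hY hZ n, dichotomy hY hdeg, fun _ hm _ hZ =>
    ⟨fun n r => main_bound hY hdeg hm hZ n r, fun _ h0 hρ => main_ratio hY hdeg hm hZ h0 hρ⟩⟩

end Pool.Agent.Results.MP_ffcd14_ag.SignatureZeroOneLaw
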