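import Pool.Agent.U625.ST.Hodge
import Pool.Agent.U625.ST.HeightOne

/-!
# The standard conjecture of Hodge type and independent slope traces

Let `X i` (`i = 1, …, r`) be even-dimensional smooth projective varieties over the algebraic closure of
the field with `p` elements, with the Weil numbers `α i` (`HasWeilNumber`): in cohomology there are,
besides classes of algebraic cycles, only eigenvectors of Frobenius in the middle degree, the
eigenvalues are, up to powers of `q`, `e i`-th roots and roots of unity, the conjugates of the number
`α i` in the CM field `E i`, with complex absolute values one, and the Tate conjecture holds for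
`X i × X i` in the middle degree. Examples are K3 surfaces of finite height (of any height) and their
relatives (cubic fourfolds, ...).

Fix a place `ι` over `p` of the algebraic closure of `ℚ`, and let `v i σ` be the slope of the
conjugate `σ (α i)`: `|σ (α i)| = p ^ (- v i σ)` (`IsSlopes`; slopes exist, see `exists_slopes`). The
*slope trace* of `y` in `E i` is `∑ σ, v i σ * σ y`. Let `L` be a subfield of the algebraic closure of
`ℚ`. We assume one condition (`SlopeIndependent`): **the slope traces of the imaginary elements of the
fields `E i` are linearly independent modulo `L`**: if `y i` in `E i` are imaginary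
(`conjugate of y i = - y i`) and `∑ i (slope trace of y i)` is in `L`, all the `y i` are zero. There are
no conditions on the fields, on heights and on numbers of copies.

**Theorem.** Let `Z = P 0 × ⋯ × P n` be a product of any number of varieties, each one of the `X i`,
with arbitrary divisors with the hard Lefschetz theorem. Suppose (as is known for K3 surfaces) that the
conjecture of Hodge type holds for the products of two factors of the same kind `X i`. Then homological
and numerical equivalence are the same on `Z`, and the **standard conjecture of Hodge type holds for
`Z`** (in all codimensions). Moreover for every smooth projective variety `U` (with a divisor with the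
hard Lefschetz theorem) for which the slopes of the Frobenius eigenvalues and their conjugates are
determined by the field `L` (`SlopesDetermined`), homological and numerical equivalence are the same on
`Z × U` if and only if they are on `U`, and **the standard conjecture of Hodge type holds for `Z × U` if
and only if it holds for `U`**. Nothing else is assumed on `U`.

If the `α i` are of height one (ordinary K3 surfaces) with the embeddings `a i`, the condition says that
the spaces `a i (E i ^ -)` of imaginary elements are linearly independent modulo `L`. So it holds for
instance for all products of ordinary K3 surfaces for which the fields `E i` are pairwise different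
imaginary quadratic fields; in this case the condition on fields of the starting result
`MP_0273e8_ag.IndependentFactors` (`E i ∩ L E 1 ⋯ E (i - 1)` is totally real or of large index) is in
general not satisfied, for example for `ℚ(√-1)`, `ℚ(√-2)`, `ℚ(√-3)`, `ℚ(√-6)`.

The idea: if a product of conjugates of the `α i`, with multiplicities `N i σ`, and of a Frobenius
eigenvalue of `U` is a power of `p` up to roots of unity, then the function
`g ↦ ∑ i σ, N i σ * v i (g σ)` on the absolute Galois group is invariant under the automorphisms over
`L`. For every `θ` in a Galois extension the elements `∑ u, (N i (u⁻¹ φ) - N i (u⁻¹ conj φ)) * u θ` come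
from an imaginary element of `E i`, and the sum of their slope traces is fixed by the automorphisms over
`L`. Hence all these elements are zero, and `N i` is invariant under complex conjugation (independence
of automorphisms). So all such relations are generated by pairs of complex conjugate numbers, and the
methods of the starting results give the assertions.
-/

set_option autoImplicit false

open CategoryTheory AlgebraicGeometry NumberField

universe u v

namespace Pool.Agent.Results.MP_ffcd14_ag.SlopeTraces

open Pool.Agent.H914 Pool.Agent.W534 Pool.Agent.TH121.KT Pool.Agent.W552
  Pool.Agent.H281R3.HT Pool.Agent.U625.ST VarClass Obj WeilCohomology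

/-- **The standard conjecture of Hodge type for products of varieties with independent slope traces,
and for their products with arbitrary varieties whose slopes are determined by `L`.** -/
theorem result {k : Type u} [Field k] {𝒱 : VarClass k} {ops : CycleOps 𝒱}
    (W : WeilCohomology.{u, v} ops) [IsAlgClosed W.K] (p : ℕ) [Fact p.Prime]
    (Φ : FrobSystem W p) {r : ℕ} (X : Fin r → 𝒱.Obj) (e : Fin r → ℕ)
    (E : Fin r → Type) [∀ i, Field (E i)] [∀ i, NumberField (E i)] [∀ i, IsCMField (E i)]
    (α : ∀ i, E i) (hX : ∀ i, HasWeilNumber Φ (X i) (e i) (α i))
    (hu : ∀ i, ∀ φ : E i →+* ℂ, ‖φ (α i)‖ = 1) (heven : ∀ i, Even (X i).dim)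
    (ι : AlgebraicClosure ℚ →+* PadicAlgCl p) (v : ∀ i, (E i →+* AlgebraicClosure ℚ) → ℚ)
    (hv : ∀ i, IsSlopes p ι (α i) (v i))
    (L : IntermediateField ℚ (AlgebraicClosure ℚ)) :
    -- the condition in the case of numbers of height one
    (∀ a : ∀ i, E i →+* AlgebraicClosure ℚ,
      (∀ i, ‖ι (a i (α i))‖ < 1 ∧ ∀ σ : E i →+* AlgebraicClosure ℚ, ‖ι (σ (α i))‖ < 1 → σ = a i) →
      (SlopeIndependent v L ↔ ∀ y : ∀ i, E i, Imaginary y → ∑ i, a i (y i) ∈ L → y = 0)) ∧
    -- the theorem
    (SlopeIndependent v L → ∀ (n : ℕ) (P : Fin (n + 1) → Polarized 𝒱) (idx : Fin (n + 1) → Fin r),
      (∀ a, (P a).X = X (idx a)) → (∀ a, (P a).X.IsCyc 1 (P a).D) →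
      (∀ a, 0 < (P a).X.V.degCycle (divPow ops (P a).D (P a).X.dim (P a).X.V.fundCycle)) →
      (∀ a, HardLefschetz W (P a).X (P a).D) →
      (∀ a b, idx a = idx b → HodgeType W ((P a).prod ops (P b)).X ((P a).prod ops (P b)).D) →
      HomEqNum W (nest ops n P).X ∧ HodgeType W (nest ops n P).X (nest ops n P).D ∧
      ∀ U : Polarized 𝒱, SlopesDetermined Φ ι L U.X → U.X.IsCyc 1 U.D →
        HardLefschetz W U.X U.D →
        (HomEqNum W ((nest ops n P).X.prod U.X) ↔ HomEqNum W U.X) ∧
        (HodgeType W ((nest ops n P).prod ops U).X ((nest ops n P).prod ops U).D ↔
          HodgeType W U.X U.D)) :=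
  ⟨fun _ ha => slopeIndependent_iff (fun i => ⟨hu i, (ha i).1, (ha i).2⟩) hv L,
    fun hind _ _ _ hP hD hdeg hHL hH2 =>
      Data.final (data_mk hX hu heven hv hind hP hD hdeg hHL hH2)⟩

end Pool.Agent.Results.MP_ffcd14_ag.SlopeTraces
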